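import Pool.Agent.R366.UC.Coef
import Pool.Agent.TH905.VF.Prox

set_option autoImplicit false

/-!
# The key inequality for the points above the points of degree `r`, with absolute constants
-/

namespace Pool.Agent.U587.FD

open NumberField IsDedekindDomain Height Pool.Agent.H691R3 Pool.Agent.TH905.VF
open Pool.Agent.H57R3.VJ (lin GenPos N1 sv Meets NN)
open Pool.Agent.R366.UC (up bad_unif height_unif)

/-- the height of the values of the forms, uniformly in the field -/
theorem val_unif {k : Type} [Field k] [NumberField k] {n q : ℕ} (hq : 0 < q)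
    {a : Fin q → Fin (n + 1) → k} (ha0 : ∀ i, a i ≠ 0) :
    ∃ A : ℝ, 0 ≤ A ∧ ∀ (K : Type) [Field K] [NumberField K] [Algebra k K] (x : Fin (n + 1) → K),
      logHeight (fun i => lin (up K a i) x) ≤ Module.finrank ℚ K * A + logHeight x := by
  have hne : Nonempty (Fin (n + 1)) := ⟨0⟩
  obtain ⟨A, hA0, hA⟩ := height_unif (k := k) (fun p : Fin q × Fin (n + 1) => a p.1 p.2) (by
    intro h0
    apply ha0 ⟨0, hq⟩
    ext j
    have := congrFun h0 (⟨0, hq⟩, j)
    simpa using this)
  have hlog : 0 ≤ Real.log ((n + 1 : ℕ) : ℝ) :=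
    Real.log_nonneg (by push_cast; linarith [(Nat.cast_nonneg n : (0:ℝ) ≤ n)])
  refine ⟨Real.log ((n + 1 : ℕ) : ℝ) + A, by linarith, ?_⟩
  intro K _ _ _ x
  have h1 := logHeight_linearMap_apply_le
    (fun p : Fin q × Fin (n + 1) => algebraMap k K (a p.1 p.2)) x
  have h2 : logHeight (fun p : Fin q × Fin (n + 1) => algebraMap k K (a p.1 p.2)) ≤
      Module.finrank ℚ K * A := by
    rw [logHeight_eq_log_mulHeight]
    have h3 := hA K
    rw [← Real.log_exp (Module.finrank ℚ K * A)]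
    exact Real.log_le_log (mulHeight_pos _) h3
  have h4 : (totalWeight K : ℝ) * Real.log (Nat.card (Fin (n + 1))) =
      Module.finrank ℚ K * Real.log ((n + 1 : ℕ) : ℝ) := by
    rw [NumberField.totalWeight_eq_finrank, Nat.card_eq_fintype_card, Fintype.card_fin]
  rw [h4] at h1
  refine le_trans (le_of_eq ?_) (h1.trans ?_)
  · rfl
  · linarith

section two

variable {K L : Type*} [Field K] [NumberField K] [Field L] [NumberField L] [Algebra K L]

/-- **The key inequality for Fermat covers, for an arbitrary finite set `T` of primes of `L`.** -/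
theorem keyT {q : ℕ} (hq : 0 < q) (e : ℕ) (x : Fin q → K) (y : Fin q → L)
    (hy : ∀ i, y i ≠ 0) (t : L) (ht : t ≠ 0) (h : ∀ i, y i ^ e = t * algebraMap K L (x i))
    (R : Finset (HeightOneSpectrum (𝓞 K))) (hR : ∀ v ∈ R, ∃ i j, fv v (x i) < fv v (x j))
    (T : Finset (HeightOneSpectrum (𝓞 L))) :
    (Module.finrank K L : ℝ) * (Real.log |(discr K : ℝ)| +
        ∑ v ∈ R, Real.log (Ideal.absNorm v.asIdeal)) +
      (∑ w : InfinitePlace L, (w.mult : ℝ) * loc w.1 y + ∑ w ∈ T, loc (fv w) y) ≤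
      Real.log |(discr L : ℝ)| + q * logHeight y + ∑ w ∈ T, Real.log (Ideal.absNorm w.asIdeal) := by
  classical
  obtain ⟨W, hW1, hW2⟩ := rel (k := K) (L := L) R
  obtain ⟨T0, hT0⟩ := exists_supp y hy
  have h1 := sum_loc y hy hq (T0 ∪ (T ∪ W)) fun v hv i => hT0 v (fun hc => hv
    (Finset.mem_union_left _ hc)) i
  have hlogN : ∀ w : HeightOneSpectrum (𝓞 L), 0 ≤ Real.log (Ideal.absNorm w.asIdeal) :=
    fun w => (log_Nv_pos w).le
  have h2 : ∑ w ∈ T, loc (fv w) y + ∑ w ∈ W \ T, loc (fv w) y ≤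
      ∑ v ∈ T0 ∪ (T ∪ W), loc (fv v) y := by
    rw [← Finset.sum_union Finset.disjoint_sdiff]
    refine Finset.sum_le_sum_of_subset_of_nonneg ?_ fun v _ _ => loc_nonneg _ y hy
    intro w hw
    rw [Finset.mem_union, Finset.mem_sdiff] at hw
    rw [Finset.mem_union, Finset.mem_union]
    tauto
  have h3 : ∑ w ∈ W \ T, Real.log (Ideal.absNorm w.asIdeal) ≤ ∑ w ∈ W \ T, loc (fv w) y := by
    refine Finset.sum_le_sum fun w hw => ?_
    obtain ⟨v, hv, hvw⟩ := hW1 w (Finset.mem_sdiff.1 hw).1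
    obtain ⟨i, j, hij⟩ := hR v hv
    refine loc_ge w y hy i j ?_
    have h4 := (fv_lt_ext v w hvw (x i) (x j)).2 hij
    have h5 : fv w (y i) ^ e < fv w (y j) ^ e := by
      rw [← map_pow, ← map_pow, h, h, map_mul, map_mul]
      exact mul_lt_mul_of_pos_left h4 ((fv w).pos ht)
    exact lt_of_pow_lt_pow_left₀ e ((fv w).nonneg _) h5
  have h4 : ∑ w ∈ W, Real.log (Ideal.absNorm w.asIdeal) ≤
      ∑ w ∈ T, Real.log (Ideal.absNorm w.asIdeal) +
        ∑ w ∈ W \ T, Real.log (Ideal.absNorm w.asIdeal) := by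
    rw [← Finset.sum_union Finset.disjoint_sdiff]
    refine Finset.sum_le_sum_of_subset_of_nonneg ?_ fun w _ _ => hlogN w
    intro w hw
    rw [Finset.mem_union, Finset.mem_sdiff]
    tauto
  linarith

end two

end Pool.Agent.U587.FD
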