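import Pool.Agent.N752.Shelf.BoundedDegreeHyperplanes
import Pool.Agent.U587.FD.Key

set_option autoImplicit false

/-!
# From a violation on a Fermat cover to a violation of the truncated inequality on projective space
-/

namespace Pool.Agent.U587.FD

open NumberField IsDedekindDomain Height Pool.Agent.H691R3 Pool.Agent.TH905.VF
open Pool.Agent.H57R3.VJ (lin GenPos N1 sv Meets NN)
open Pool.Agent.R366.UC (up bad_unif height_unif)
open Pool.Agent.Results.MP_44a246_nt.BoundedDegreeHyperplanes
open scoped Classical LinearAlgebra.Projectivization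

/-- a violation of the inequality with proximity function on some Fermat cover, absolute
normalisation -/
def Viol {K : Type} [Field K] {q : ℕ} (θ c : ℝ) (v : Fin q → K) : Prop :=
  ∃ (e : ℕ) (L : Type) (_ : Field L) (_ : NumberField L) (_ : Algebra K L) (y : Fin q → L) (t : L)
    (T : Finset (HeightOneSpectrum (𝓞 L))),
    1 ≤ e ∧ t ≠ 0 ∧ (∀ i, y i ^ e = t * algebraMap K L (v i)) ∧
      Real.log |(NumberField.discr L : ℝ)| / Module.finrank ℚ L +
        (∑ w ∈ T, Real.log (Ideal.absNorm w.asIdeal)) / Module.finrank ℚ L + c <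
      (θ * e - q) * (Height.logHeight y / Module.finrank ℚ L) +
        (∑ w : InfinitePlace L, (w.mult : ℝ) * loc w.1 y + ∑ w ∈ T, loc (fv w) y) /
          Module.finrank ℚ L

lemma Viol.smul {K : Type} [Field K] {q : ℕ} {θ c : ℝ} {v : Fin q → K} (h : Viol θ c v) {s : K}
    (hs : s ≠ 0) : Viol θ c (fun i => s * v i) := by
  obtain ⟨e, L, i1, i2, i3, y, t, T, he, ht, hy, hv⟩ := h
  refine ⟨e, L, i1, i2, i3, y, t * (algebraMap K L s)⁻¹, T, he, ?_, ?_, hv⟩
  · refine mul_ne_zero ht (inv_ne_zero ?_)
    rw [Ne, map_eq_zero]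
    exact hs
  · intro i
    have h1 : algebraMap K L s ≠ 0 := by
      rw [Ne, map_eq_zero]
      exact hs
    rw [hy i, map_mul]
    field_simp

theorem core (k : IntermediateField ℚ ℂ) [NumberField k] {m q : ℕ} (hq : m + 1 ≤ q)
    (a : Fin q → Fin (m + 1) → k)
    (ha : ∀ I : Finset (Fin q), I.card = m + 1 → LinearIndependent k (fun i : I => a i))
    (θ c : ℝ) (hθ : 0 ≤ θ) :
    ∃ c' : ℝ, ∀ (K : IntermediateField ℚ ℂ) (_ : NumberField K) (h : k ≤ K)
      (Q : ℙ K (Fin (m + 1) → K)), (∀ i, value (liftTo h a i) Q ≠ 0) →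
      Viol θ c (fun i => value (liftTo h a i) Q) →
      ∃ S : Finset (FinitePlace K), truncated S (liftTo h a) Q +
        (∑ v ∈ S, logNorm v) / Module.finrank ℚ K + logDisc K ≤ θ * height Q + c' := by
  have ha0 : ∀ i, a i ≠ 0 := GenPos.ne_zero ha hq
  obtain ⟨A, hA0, hA⟩ := bad_unif (a := a) ha ha0
  obtain ⟨C, hC0, hC⟩ := val_unif (n := m) (by omega : 0 < q) ha0
  refine ⟨θ * C - c + A, ?_⟩
  intro K hK h Q hval hv
  let _ : Algebra k K := (IntermediateField.inclusion h).toRingHom.toAlgebra
  obtain ⟨S0, hS0, hs1, hs2⟩ := hA K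
  obtain ⟨e, L, _, _, _, y, t, T, he, ht, hy, hviol⟩ := hv
  refine ⟨S0, ?_⟩
  have hnK : (0 : ℝ) < Module.finrank ℚ K := by exact_mod_cast Module.finrank_pos
  have hnL : (0 : ℝ) < Module.finrank ℚ L := by exact_mod_cast Module.finrank_pos
  have hnKL : (0 : ℝ) < Module.finrank K L := by exact_mod_cast Module.finrank_pos
  have hfr : (Module.finrank ℚ L : ℝ) = Module.finrank ℚ K * Module.finrank K L := by
    rw [← Module.finrank_mul_finrank ℚ K L]
    push_cast
    ring
  have hup : up K a = liftTo h a := rfl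
  have hlin : ∀ i, lin (up K a i) Q.rep = value (liftTo h a i) Q := fun i => rfl
  have hl : ∀ i, lin (up K a i) Q.rep ≠ 0 := fun i => hval i
  have hup0 : ∀ i, up K a i ≠ 0 := fun i => Pool.Agent.R366.UC.up_ne_zero (ha0 i)
  have hyne : ∀ i, y i ≠ 0 := by
    intro i h0
    have h3 := hy i
    rw [h0, zero_pow (by omega)] at h3
    have h4 : algebraMap K L (value (liftTo h a i) Q) ≠ 0 := by
      rw [Ne, map_eq_zero]
      exact hval i
    exact mul_ne_zero ht h4 h3.symm
  -- the bound for the truncated counting function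
  set X : ℝ := Module.finrank ℚ K * (θ * height Q + θ * C - c - logDisc K) with hX
  have hN1 : N1 S0 (up K a) Q.rep ≤ X := by
    refine N1_le hq hup0 S0 hs1 hs2 Q.rep Q.rep_nonzero hl _ fun R hR => ?_
    have h3 := keyT (K := K) (L := L) (by omega : 0 < q) e
      (fun i => value (liftTo h a i) Q) y hyne t ht hy R (fun v hv' => (hR v hv').2) T
    have h4 := height_pow e (fun i => value (liftTo h a i) Q) y t ht hy
    have h5 : logHeight (fun i => value (liftTo h a i) Q) ≤
        Module.finrank ℚ K * C + logHeight Q.rep := hC K Q.rep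
    have h6 : height Q = logHeight Q.rep / Module.finrank ℚ K := by
      unfold height
      rw [logHeight_eq_log_mulHeight]
      congr 2
      conv_lhs => rw [← Q.mk_rep]
      exact Projectivization.mulHeight_mk _
    -- clear the denominators in the violated inequality
    have h7 : Real.log |(NumberField.discr L : ℝ)| +
        (∑ w ∈ T, Real.log (Ideal.absNorm w.asIdeal)) + Module.finrank ℚ L * c <
        (θ * e - q) * Height.logHeight y +
        (∑ w : InfinitePlace L, (w.mult : ℝ) * loc w.1 y + ∑ w ∈ T, loc (fv w) y) := by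
      have := mul_lt_mul_of_pos_left hviol hnL
      have e1 : (Module.finrank ℚ L : ℝ) *
        (Real.log |(NumberField.discr L : ℝ)| / Module.finrank ℚ L +
        (∑ w ∈ T, Real.log (Ideal.absNorm w.asIdeal)) / Module.finrank ℚ L + c) =
        Real.log |(NumberField.discr L : ℝ)| +
        (∑ w ∈ T, Real.log (Ideal.absNorm w.asIdeal)) + Module.finrank ℚ L * c := by
        field_simp
      have e2 : (Module.finrank ℚ L : ℝ) *
        ((θ * e - q) * (Height.logHeight y / Module.finrank ℚ L) +
        (∑ w : InfinitePlace L, (w.mult : ℝ) * loc w.1 y + ∑ w ∈ T, loc (fv w) y) /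
          Module.finrank ℚ L) = (θ * e - q) * Height.logHeight y +
        (∑ w : InfinitePlace L, (w.mult : ℝ) * loc w.1 y + ∑ w ∈ T, loc (fv w) y) := by
        field_simp
      rw [e1, e2] at this
      exact this
    have h8 : (Module.finrank K L : ℝ) * (Real.log |(discr K : ℝ)| +
        ∑ v ∈ R, Real.log (Ideal.absNorm v.asIdeal)) <
        Module.finrank K L * (θ * (Module.finrank ℚ K * C + logHeight Q.rep) -
          Module.finrank ℚ K * c) := by
      have h9 : θ * ((e : ℝ) * logHeight y) ≤
          θ * (Module.finrank K L * (Module.finrank ℚ K * C + logHeight Q.rep)) := by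
        rw [h4]
        exact mul_le_mul_of_nonneg_left (mul_le_mul_of_nonneg_left h5 hnKL.le) hθ
      rw [hfr] at h7
      nlinarith
    have h9 := lt_of_mul_lt_mul_left h8 hnKL.le
    have h10 : (Module.finrank ℚ K : ℝ) * logDisc K = Real.log |(discr K : ℝ)| := by
      unfold logDisc
      field_simp
    have h11 : (Module.finrank ℚ K : ℝ) * height Q = logHeight Q.rep := by
      rw [h6]
      field_simp
    rw [hX]
    have e3 : (Module.finrank ℚ K : ℝ) * (θ * height Q + θ * C - c - logDisc K) =
        θ * (Module.finrank ℚ K * height Q) + θ * (Module.finrank ℚ K * C) -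
          Module.finrank ℚ K * c - Module.finrank ℚ K * logDisc K := by ring
    rw [e3, h10, h11]
    linarith
  have htr : truncated S0 (liftTo h a) Q = N1 S0 (up K a) Q.rep / Module.finrank ℚ K := rfl
  have hb : (∑ v ∈ S0, logNorm v) / (Module.finrank ℚ K : ℝ) ≤ A := by
    rw [div_le_iff₀ hnK]
    refine le_trans (le_of_eq ?_) (hS0.trans (le_of_eq (mul_comm _ _)))
    rfl
  have h1 : N1 S0 (up K a) Q.rep / (Module.finrank ℚ K : ℝ) ≤
      θ * height Q + θ * C - c - logDisc K := by
    rw [div_le_iff₀ hnK]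
    refine hN1.trans (le_of_eq ?_)
    rw [hX]
    ring
  rw [htr]
  linarith

end Pool.Agent.U587.FD
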