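import Pool.Agent.R366.UC.Coef
import Pool.Agent.TH905.VF.Prox

set_option autoImplicit false

/-!
# The key inequality for orbifold (Campana) points over extensions of the residue field
-/

namespace Pool.Agent.U587.FD

open NumberField IsDedekindDomain Height Pool.Agent.H691R3 Pool.Agent.TH905.VF
open Pool.Agent.H57R3.VJ (lin GenPos N1 sv Meets NN)
open Pool.Agent.R366.UC (up bad_unif height_unif)

/-- the local height of the hyperplane with coefficients `b` at `x` for an absolute value -/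
noncomputable def lam {L : Type*} [Field L] {m : ℕ} (f : AbsoluteValue L ℝ)
    (b x : Fin (m + 1) → L) : ℝ :=
  Real.log ((⨆ j, f (b j)) * (⨆ j, f (x j)) / f (∑ j, b j * x j))

section one

variable {L : Type*} [Field L] [NumberField L] {m : ℕ}

lemma sup_pos' (f : AbsoluteValue L ℝ) {y : Fin (m + 1) → L} (hy : y ≠ 0) :
    0 < ⨆ j, f (y j) := by
  obtain ⟨j, hj⟩ := Function.ne_iff.1 hy
  exact (f.pos hj).trans_le (Finite.le_ciSup_of_le (f := fun j => f (y j)) j le_rfl)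

lemma sup_fin {y : Fin (m + 1) → L} (hy : y ≠ 0) :
    ∃ T : Finset (HeightOneSpectrum (𝓞 L)), ∀ v, v ∉ T → (⨆ j, fv v (y j)) = 1 := by
  classical
  refine ⟨Finset.univ.biUnion fun i => if h : y i = 0 then ∅ else
    (fv_support_finite h).toFinset, fun v hv => ?_⟩
  have h1 : ∀ i, y i ≠ 0 → fv v (y i) = 1 := by
    intro i hi
    by_contra hc
    apply hv
    rw [Finset.mem_biUnion]
    refine ⟨i, Finset.mem_univ i, ?_⟩
    rw [dif_neg hi]
    exact (Set.Finite.mem_toFinset _).2 hc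
  obtain ⟨j, hj⟩ := Function.ne_iff.1 hy
  apply le_antisymm
  · refine ciSup_le fun i => ?_
    by_cases hi : y i = 0
    · rw [hi, map_zero]
      exact zero_le_one
    · exact (h1 i hi).le
  · rw [← h1 j hj]
    exact Finite.le_ciSup_of_le (f := fun j => fv v (y j)) j le_rfl

lemma logHeight_sum {y : Fin (m + 1) → L} (hy : y ≠ 0)
    (T : Finset (HeightOneSpectrum (𝓞 L))) (hT : ∀ v, v ∉ T → (⨆ j, fv v (y j)) = 1) :
    logHeight y = ∑ w : InfinitePlace L, (w.mult : ℝ) * Real.log (⨆ j, w.1 (y j)) +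
      ∑ v ∈ T, Real.log (⨆ j, fv v (y j)) := by
  have h := NumberField.mulHeight_eq (K := L) hy
  have h1 : ∏ᶠ w : FinitePlace L, ⨆ i, w (y i) =
      ∏ᶠ v : HeightOneSpectrum (𝓞 L), ⨆ i, fv v (y i) := by
    rw [← finprod_comp_equiv (FinitePlace.equivHeightOneSpectrum (K := L)).symm]
    rfl
  have h2 : ∏ᶠ v : HeightOneSpectrum (𝓞 L), ⨆ i, fv v (y i) = ∏ v ∈ T, ⨆ i, fv v (y i) := by
    refine finprod_eq_prod_of_mulSupport_subset _ ?_
    intro v hv
    by_contra hc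
    rw [Finset.mem_coe] at hc
    apply hv
    exact hT v hc
  rw [h1, h2] at h
  rw [logHeight_eq_log_mulHeight, h, Real.log_mul, Real.log_prod, Real.log_prod]
  · congr 1
    refine Finset.sum_congr rfl fun w _ => ?_
    rw [Real.log_pow]
    rfl
  · intro v _
    exact (sup_pos' (fv v) hy).ne'
  · intro w _
    exact (pow_pos (sup_pos' w.1 hy) _).ne'
  · exact (Finset.prod_pos fun w _ => pow_pos (sup_pos' w.1 hy) _).ne'
  · exact (Finset.prod_pos fun v _ => sup_pos' (fv v) hy).ne'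

lemma lam_eq (f : AbsoluteValue L ℝ) {b x : Fin (m + 1) → L} (hb : b ≠ 0) (hx : x ≠ 0)
    (hl : ∑ j, b j * x j ≠ 0) : lam f b x = Real.log (⨆ j, f (b j)) + Real.log (⨆ j, f (x j)) -
      Real.log (f (∑ j, b j * x j)) := by
  unfold lam
  rw [Real.log_div (mul_pos (sup_pos' f hb) (sup_pos' f hx)).ne' (f.pos hl).ne',
    Real.log_mul (sup_pos' f hb).ne' (sup_pos' f hx).ne']

lemma fv_lin_le (v : HeightOneSpectrum (𝓞 L)) (b x : Fin (m + 1) → L) :
    fv v (∑ j, b j * x j) ≤ (⨆ j, fv v (b j)) * ⨆ j, fv v (x j) :=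
  Pool.Agent.H57R3.VJ.lin_le (FinitePlace.mk v) b x

lemma lam_nonneg (v : HeightOneSpectrum (𝓞 L)) {b x : Fin (m + 1) → L}
    (hl : ∑ j, b j * x j ≠ 0) : 0 ≤ lam (fv v) b x := by
  unfold lam
  refine Real.log_nonneg ?_
  rw [le_div_iff₀ ((fv v).pos hl), one_mul]
  exact fv_lin_le v b x

lemma lam_pos (v : HeightOneSpectrum (𝓞 L)) {b x : Fin (m + 1) → L}
    (hl : ∑ j, b j * x j ≠ 0)
    (h : fv v (∑ j, b j * x j) < (⨆ j, fv v (b j)) * ⨆ j, fv v (x j)) :
    0 < lam (fv v) b x := by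
  unfold lam
  refine Real.log_pos ?_
  rw [lt_div_iff₀ ((fv v).pos hl), one_mul]
  exact h

/-- the sum of all local heights -/
lemma sum_lam {b x : Fin (m + 1) → L} (hb : b ≠ 0) (hx : x ≠ 0) (hl : ∑ j, b j * x j ≠ 0)
    (T : Finset (HeightOneSpectrum (𝓞 L))) (hT : ∀ v, v ∉ T → lam (fv v) b x = 0) :
    ∑ w : InfinitePlace L, (w.mult : ℝ) * lam w.1 b x + ∑ v ∈ T, lam (fv v) b x =
      logHeight b + logHeight x := by
  classical
  obtain ⟨T1, hT1⟩ := sup_fin hb
  obtain ⟨T2, hT2⟩ := sup_fin hx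
  set T3 := (fv_support_finite hl).toFinset with hT3
  have hT3' : ∀ v, v ∉ T3 → fv v (∑ j, b j * x j) = 1 := by
    intro v hv
    by_contra hc
    exact hv ((Set.Finite.mem_toFinset _).2 hc)
  set U := T ∪ (T1 ∪ (T2 ∪ T3)) with hU
  have h1 : ∑ v ∈ T, lam (fv v) b x = ∑ v ∈ U, lam (fv v) b x := by
    refine Finset.sum_subset Finset.subset_union_left fun v _ hv => hT v hv
  have hU1 : ∀ v, v ∉ U → v ∉ T1 ∧ v ∉ T2 ∧ v ∉ T3 := by
    intro v hv
    rw [hU, Finset.mem_union, Finset.mem_union, Finset.mem_union] at hv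
    tauto
  rw [h1, logHeight_sum hb U fun v hv => hT1 v (hU1 v hv).1,
    logHeight_sum hx U fun v hv => hT2 v (hU1 v hv).2.1]
  have h2 := product_formula hl U fun v hv => hT3' v (hU1 v hv).2.2
  rw [Finset.sum_congr rfl fun w _ => congrArg (fun t => (w.mult : ℝ) * t) (lam_eq w.1 hb hx hl),
    Finset.sum_congr rfl fun v _ => lam_eq (fv v) hb hx hl]
  simp only [mul_sub, mul_add, Finset.sum_sub_distrib, Finset.sum_add_distrib]
  linarith

lemma lam_fin {b x : Fin (m + 1) → L} (hb : b ≠ 0) (hx : x ≠ 0) (hl : ∑ j, b j * x j ≠ 0) :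
    ∃ T : Finset (HeightOneSpectrum (𝓞 L)), ∀ v, v ∉ T → lam (fv v) b x = 0 := by
  classical
  obtain ⟨T1, hT1⟩ := sup_fin hb
  obtain ⟨T2, hT2⟩ := sup_fin hx
  refine ⟨T1 ∪ (T2 ∪ (fv_support_finite hl).toFinset), fun v hv => ?_⟩
  rw [Finset.mem_union, Finset.mem_union] at hv
  push Not at hv
  have h3 : fv v (∑ j, b j * x j) = 1 := by
    by_contra hc
    exact hv.2.2 ((Set.Finite.mem_toFinset _).2 hc)
  rw [lam_eq (fv v) hb hx hl, hT1 v hv.1, hT2 v hv.2.1, h3]
  simp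

end one

section two

variable {K L : Type*} [Field K] [NumberField K] [Field L] [NumberField L] [Algebra K L] {m : ℕ}

/-- the vector over the extension -/
def ext (L : Type*) [Field L] [Algebra K L] (b : Fin (m + 1) → K) : Fin (m + 1) → L :=
  fun j => algebraMap K L (b j)

omit [NumberField K] [NumberField L] in
lemma ext_ne {b : Fin (m + 1) → K} (hb : b ≠ 0) : ext L b ≠ 0 := by
  intro h0
  apply hb
  ext j
  have := congrFun h0 j
  simpa [ext] using this

omit [NumberField K] [NumberField L] in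
lemma ext_lin (b x : Fin (m + 1) → K) :
    ∑ j, ext L b j * ext L x j = algebraMap K L (∑ j, b j * x j) := by
  simp [ext, map_sum, map_mul]

lemma ext_meets (v : HeightOneSpectrum (𝓞 K)) (w : HeightOneSpectrum (𝓞 L))
    (hw : w.asIdeal.LiesOver v.asIdeal) (b x : Fin (m + 1) → K)
    (h : fv v (∑ j, b j * x j) < (⨆ j, fv v (b j)) * ⨆ j, fv v (x j)) :
    fv w (∑ j, ext L b j * ext L x j) < (⨆ j, fv w (ext L b j)) * ⨆ j, fv w (ext L x j) := by
  obtain ⟨j1, hj1⟩ := exists_eq_ciSup_of_finite (f := fun j => fv v (b j))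
  obtain ⟨j2, hj2⟩ := exists_eq_ciSup_of_finite (f := fun j => fv v (x j))
  rw [← hj1, ← hj2, ← map_mul] at h
  have h1 := (fv_lt_ext v w hw _ _).2 h
  rw [ext_lin]
  refine h1.trans_le ?_
  rw [map_mul, map_mul]
  exact mul_le_mul (Finite.le_ciSup_of_le (f := fun j => fv w (ext L b j)) j1 le_rfl)
    (Finite.le_ciSup_of_le (f := fun j => fv w (ext L x j)) j2 le_rfl) ((fv w).nonneg _)
    (((fv w).nonneg _).trans (Finite.le_ciSup_of_le (f := fun j => fv w (ext L b j)) j1 le_rfl))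

open Classical in
/-- **The key inequality for orbifold points.** -/
theorem orbKey {q : ℕ} (b : Fin q → Fin (m + 1) → K) (hb : ∀ i, b i ≠ 0)
    (x : Fin (m + 1) → K) (hx : x ≠ 0) (hl : ∀ i, ∑ j, b i j * x j ≠ 0)
    (R : Finset (HeightOneSpectrum (𝓞 K)))
    (hR : ∀ v ∈ R, ∃ i, fv v (∑ j, b i j * x j) < (⨆ j, fv v (b i j)) * ⨆ j, fv v (x j))
    (T : Finset (HeightOneSpectrum (𝓞 L))) (J : Finset (Fin q)) (e : Fin q → ℕ)
    (he : ∀ i ∉ J, 1 ≤ e i)
    (hC : ∀ w ∉ T, ∀ i ∉ J, 0 < lam (fv w) (ext L (b i)) (ext L x) →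
      e i * Real.log (Ideal.absNorm w.asIdeal) ≤ lam (fv w) (ext L (b i)) (ext L x)) :
    (Module.finrank K L : ℝ) * (Real.log |(discr K : ℝ)| +
        ∑ v ∈ R, Real.log (Ideal.absNorm v.asIdeal)) ≤
      Real.log |(discr L : ℝ)| + ∑ w ∈ T, Real.log (Ideal.absNorm w.asIdeal) +
      (∑ᶠ w : HeightOneSpectrum (𝓞 L),
        if w ∉ T ∧ ∃ i ∈ J, 0 < lam (fv w) (ext L (b i)) (ext L x) then
          Real.log (Ideal.absNorm w.asIdeal) else 0) +
      ∑ i ∈ Jᶜ, (1 / (e i : ℝ)) * (logHeight (ext L (b i)) + logHeight (ext L x) -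
        (∑ w : InfinitePlace L, (w.mult : ℝ) * lam w.1 (ext L (b i)) (ext L x) +
          ∑ w ∈ T, lam (fv w) (ext L (b i)) (ext L x))) := by
  obtain ⟨W, hW1, hW2⟩ := rel (k := K) (L := L) R
  have hb' : ∀ i, ext L (b i) ≠ 0 := fun i => ext_ne (hb i)
  have hx' : ext L x ≠ 0 := ext_ne hx
  have hl' : ∀ i, ∑ j, ext L (b i) j * ext L x j ≠ 0 := by
    intro i
    rw [ext_lin, Ne, map_eq_zero]
    exact hl i
  have hlogN : ∀ w : HeightOneSpectrum (𝓞 L), 0 ≤ Real.log (Ideal.absNorm w.asIdeal) :=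
    fun w => (log_Nv_pos w).le
  set F : HeightOneSpectrum (𝓞 L) → ℝ := fun w =>
    if w ∉ T ∧ ∃ i ∈ J, 0 < lam (fv w) (ext L (b i)) (ext L x) then
          Real.log (Ideal.absNorm w.asIdeal) else 0 with hF
  have hF0 : ∀ w, 0 ≤ F w := by
    intro w
    rw [hF]
    simp only
    split_ifs
    · exact hlogN w
    · exact le_rfl
  choose T0 hT0 using fun i => lam_fin (hb' i) hx' (hl' i)
  have hFfin : (Function.support F).Finite := by
    refine (Finset.finite_toSet (Finset.univ.biUnion T0)).subset ?_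
    intro w hw
    by_contra hc
    apply hw
    rw [hF]
    simp only
    rw [if_neg]
    rintro ⟨-, i, -, hi⟩
    apply hc
    rw [Finset.mem_coe, Finset.mem_biUnion]
    refine ⟨i, Finset.mem_univ i, ?_⟩
    by_contra hc'
    rw [hT0 i w hc'] at hi
    exact lt_irrefl _ hi
  -- the bound at one prime
  have h3 : ∀ w ∈ W \ T, Real.log (Ideal.absNorm w.asIdeal) ≤ F w +
      ∑ i ∈ Jᶜ, (1 / (e i : ℝ)) * lam (fv w) (ext L (b i)) (ext L x) := by
    intro w hw
    obtain ⟨hwW, hwT⟩ := Finset.mem_sdiff.1 hw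
    obtain ⟨v, hv, hvw⟩ := hW1 w hwW
    obtain ⟨i, hi⟩ := hR v hv
    have hpos : 0 < lam (fv w) (ext L (b i)) (ext L x) :=
      lam_pos w (hl' i) (ext_meets v w hvw (b i) x hi)
    have hnn : ∀ i ∈ Jᶜ, 0 ≤ (1 / (e i : ℝ)) * lam (fv w) (ext L (b i)) (ext L x) :=
      fun i _ => mul_nonneg (by positivity) (lam_nonneg w (hl' i))
    by_cases hiJ : i ∈ J
    · have h4 : F w = Real.log (Ideal.absNorm w.asIdeal) := if_pos ⟨hwT, i, hiJ, hpos⟩
      rw [h4]
      have := Finset.sum_nonneg hnn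
      linarith
    · have h4 := hC w hwT i hiJ hpos
      have h5 : (0 : ℝ) < e i := by exact_mod_cast he i hiJ
      have h6 : Real.log (Ideal.absNorm w.asIdeal) ≤
          (1 / (e i : ℝ)) * lam (fv w) (ext L (b i)) (ext L x) := by
        rw [one_div, le_inv_mul_iff₀ h5]
        exact h4
      have h7 := Finset.single_le_sum hnn (Finset.mem_compl.2 hiJ)
      have := hF0 w
      linarith
  have h4 : ∑ w ∈ W, Real.log (Ideal.absNorm w.asIdeal) ≤
      ∑ w ∈ T, Real.log (Ideal.absNorm w.asIdeal) +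
        ∑ w ∈ W \ T, Real.log (Ideal.absNorm w.asIdeal) := by
    rw [← Finset.sum_union Finset.disjoint_sdiff]
    refine Finset.sum_le_sum_of_subset_of_nonneg ?_ fun w _ _ => hlogN w
    intro w hw
    rw [Finset.mem_union, Finset.mem_sdiff]
    tauto
  have h5 : ∑ w ∈ W \ T, Real.log (Ideal.absNorm w.asIdeal) ≤ ∑ w ∈ W \ T, F w +
      ∑ i ∈ Jᶜ, (1 / (e i : ℝ)) * ∑ w ∈ W \ T, lam (fv w) (ext L (b i)) (ext L x) := by
    refine (Finset.sum_le_sum h3).trans (le_of_eq ?_)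
    rw [Finset.sum_add_distrib, Finset.sum_comm]
    congr 1
    refine Finset.sum_congr rfl fun i _ => ?_
    rw [Finset.mul_sum]
  have h6 : ∑ w ∈ W \ T, F w ≤ ∑ᶠ w, F w := by
    rw [finsum_eq_sum _ hFfin]
    have h7 : ∑ w ∈ W \ T, F w = ∑ w ∈ (W \ T) ∪ hFfin.toFinset, F w - ∑ w ∈ ((W \ T) ∪ hFfin.toFinset) \ (W \ T), F w := by
      rw [← Finset.sum_sdiff (Finset.subset_union_left (s₁ := W \ T) (s₂ := hFfin.toFinset))]
      ring
    have h8 : ∑ w ∈ (W \ T) ∪ hFfin.toFinset, F w = ∑ w ∈ hFfin.toFinset, F w := by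
      symm
      refine Finset.sum_subset Finset.subset_union_right fun w _ hw => ?_
      rw [Set.Finite.mem_toFinset] at hw
      exact Function.notMem_support.1 hw
    have h9 : 0 ≤ ∑ w ∈ ((W \ T) ∪ hFfin.toFinset) \ (W \ T), F w :=
      Finset.sum_nonneg fun w _ => hF0 w
    linarith
  have h7 : ∀ i ∈ Jᶜ, ∑ w ∈ W \ T, lam (fv w) (ext L (b i)) (ext L x) ≤
      logHeight (ext L (b i)) + logHeight (ext L x) -
        (∑ w : InfinitePlace L, (w.mult : ℝ) * lam w.1 (ext L (b i)) (ext L x) +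
          ∑ w ∈ T, lam (fv w) (ext L (b i)) (ext L x)) := by
    intro i _
    have h8 := sum_lam (hb' i) hx' (hl' i) (T0 i ∪ (T ∪ W)) fun v hv => hT0 i v (fun hc => hv
      (Finset.mem_union_left _ hc))
    have h9 : ∑ w ∈ T, lam (fv w) (ext L (b i)) (ext L x) +
        ∑ w ∈ W \ T, lam (fv w) (ext L (b i)) (ext L x) ≤
        ∑ v ∈ T0 i ∪ (T ∪ W), lam (fv v) (ext L (b i)) (ext L x) := by
      rw [← Finset.sum_union Finset.disjoint_sdiff]
      refine Finset.sum_le_sum_of_subset_of_nonneg ?_ fun v _ _ => lam_nonneg v (hl' i)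
      intro w hw
      rw [Finset.mem_union, Finset.mem_sdiff] at hw
      rw [Finset.mem_union, Finset.mem_union]
      tauto
    linarith
  have h8 : ∑ i ∈ Jᶜ, (1 / (e i : ℝ)) * ∑ w ∈ W \ T, lam (fv w) (ext L (b i)) (ext L x) ≤
      ∑ i ∈ Jᶜ, (1 / (e i : ℝ)) * (logHeight (ext L (b i)) + logHeight (ext L x) -
        (∑ w : InfinitePlace L, (w.mult : ℝ) * lam w.1 (ext L (b i)) (ext L x) +
          ∑ w ∈ T, lam (fv w) (ext L (b i)) (ext L x))) :=
    Finset.sum_le_sum fun i hi => mul_le_mul_of_nonneg_left (h7 i hi) (by positivity)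
  linarith

end two

end Pool.Agent.U587.FD
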