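import Pool.Agent.N752.Shelf.BoundedDegreeHyperplanes
import Pool.Agent.U587.FD.Orb

set_option autoImplicit false

/-!
# From a violation over an extension to a violation of the truncated inequality on projective space
-/

namespace Pool.Agent.U587.FD

open NumberField IsDedekindDomain Height Pool.Agent.H691R3 Pool.Agent.TH905.VF
open Pool.Agent.H57R3.VJ (lin GenPos N1 sv Meets NN)
open Pool.Agent.R366.UC (up bad_unif height_unif)
open Pool.Agent.Results.MP_44a246_nt.BoundedDegreeHyperplanes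
open scoped Classical LinearAlgebra.Projectivization

/-- a violation of the orbifold inequality, absolute normalisation -/
def OViol {K : Type} [Field K] {m q : ℕ} (θ c : ℝ) (b : Fin q → Fin (m + 1) → K)
    (x : Fin (m + 1) → K) : Prop :=
  ∃ (L : Type) (_ : Field L) (_ : NumberField L) (_ : Algebra K L)
    (T : Finset (HeightOneSpectrum (𝓞 L))) (J : Finset (Fin q)) (e : Fin q → ℕ),
    (∀ i ∉ J, 1 ≤ e i) ∧
    (∀ w ∉ T, ∀ i ∉ J, 0 < lam (fv w) (ext L (b i)) (ext L x) →
      e i * Real.log (Ideal.absNorm w.asIdeal) ≤ lam (fv w) (ext L (b i)) (ext L x)) ∧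
    (∑ᶠ w : HeightOneSpectrum (𝓞 L),
        if w ∉ T ∧ ∃ i ∈ J, 0 < lam (fv w) (ext L (b i)) (ext L x) then
          Real.log (Ideal.absNorm w.asIdeal) else 0) / Module.finrank ℚ L +
      (∑ w ∈ T, Real.log (Ideal.absNorm w.asIdeal)) / Module.finrank ℚ L +
      Real.log |(NumberField.discr L : ℝ)| / Module.finrank ℚ L + c <
    (θ - ∑ i ∈ Jᶜ, 1 / (e i : ℝ)) * (Height.logHeight (ext L x) / Module.finrank ℚ L) +
      ∑ i ∈ Jᶜ, 1 / (e i : ℝ) * ((∑ w : InfinitePlace L,
        (w.mult : ℝ) * lam w.1 (ext L (b i)) (ext L x) +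
          ∑ w ∈ T, lam (fv w) (ext L (b i)) (ext L x)) / Module.finrank ℚ L)

theorem orbCore (k : IntermediateField ℚ ℂ) [NumberField k] {m q : ℕ} (hq : m + 1 ≤ q)
    (a : Fin q → Fin (m + 1) → k)
    (ha : ∀ I : Finset (Fin q), I.card = m + 1 → LinearIndependent k (fun i : I => a i))
    (θ c : ℝ) (hθ : 0 ≤ θ) :
    ∃ c' : ℝ, ∀ (K : IntermediateField ℚ ℂ) (_ : NumberField K) (h : k ≤ K)
      (Q : ℙ K (Fin (m + 1) → K)), (∀ i, value (liftTo h a i) Q ≠ 0) →
      OViol θ c (liftTo h a) Q.rep →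
      ∃ S : Finset (FinitePlace K), truncated S (liftTo h a) Q +
        (∑ v ∈ S, logNorm v) / Module.finrank ℚ K + logDisc K ≤ θ * height Q + c' := by
  have ha0 : ∀ i, a i ≠ 0 := GenPos.ne_zero ha hq
  obtain ⟨A, hA0, hA⟩ := bad_unif (a := a) ha ha0
  have hht : ∀ i, ∃ C : ℝ, 0 ≤ C ∧ ∀ (K : Type) [Field K] [NumberField K] [Algebra k K],
      mulHeight (fun j => algebraMap k K (a i j)) ≤ Real.exp (Module.finrank ℚ K * C) :=
    fun i => height_unif (a i) (ha0 i)
  choose C hC0 hC using hht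
  refine ⟨∑ i, C i - c + A, ?_⟩
  intro K hK h Q hval hv
  let _ : Algebra k K := (IntermediateField.inclusion h).toRingHom.toAlgebra
  obtain ⟨S0, hS0, hs1, hs2⟩ := hA K
  obtain ⟨L, _, _, _, T, J, e, he, hCamp, hviol⟩ := hv
  refine ⟨S0, ?_⟩
  have hnK : (0 : ℝ) < Module.finrank ℚ K := by exact_mod_cast Module.finrank_pos
  have hnL : (0 : ℝ) < Module.finrank ℚ L := by exact_mod_cast Module.finrank_pos
  have hnKL : (0 : ℝ) < Module.finrank K L := by exact_mod_cast Module.finrank_pos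
  have hfr : (Module.finrank ℚ L : ℝ) = Module.finrank ℚ K * Module.finrank K L := by
    rw [← Module.finrank_mul_finrank ℚ K L]
    push_cast
    ring
  have hl : ∀ i, lin (up K a i) Q.rep ≠ 0 := fun i => hval i
  have hup0 : ∀ i, up K a i ≠ 0 := fun i => Pool.Agent.R366.UC.up_ne_zero (ha0 i)
  have hLx : logHeight (ext L Q.rep) = Module.finrank K L * logHeight Q.rep :=
    Pool.Agent.Helper259.HtExt.logHeight_ext (L := L) Q.rep
  have hLb : ∀ i, logHeight (ext L (up K a i)) ≤ Module.finrank ℚ L * C i := by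
    intro i
    have h1 : logHeight (ext L (up K a i)) = Module.finrank K L * logHeight (up K a i) :=
      Pool.Agent.Helper259.HtExt.logHeight_ext (L := L) (up K a i)
    have h2 : logHeight (up K a i) ≤ Module.finrank ℚ K * C i := by
      rw [logHeight_eq_log_mulHeight, ← Real.log_exp (Module.finrank ℚ K * C i)]
      exact Real.log_le_log (mulHeight_pos _) (hC i K)
    rw [h1, hfr]
    nlinarith
  -- the bound for the truncated counting function
  set X : ℝ := Module.finrank ℚ K * (θ * height Q + ∑ i, C i - c - logDisc K) with hX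
  have hN1 : N1 S0 (up K a) Q.rep ≤ X := by
    refine N1_le hq hup0 S0 hs1 hs2 Q.rep Q.rep_nonzero hl _ fun R hR => ?_
    have hR' : ∀ v ∈ R, ∃ i, fv v (∑ j, up K a i j * Q.rep j) <
        (⨆ j, fv v (up K a i j)) * ⨆ j, fv v (Q.rep j) := by
      intro v hv
      obtain ⟨hvS, i, j, hij⟩ := hR v hv
      refine ⟨i, ?_⟩
      have h1 : fv v (lin (up K a j) Q.rep) ≤ (⨆ l, fv v (up K a j l)) * ⨆ l, fv v (Q.rep l) :=
        fv_lin_le v (up K a j) Q.rep
      have h2 : ∀ i, (⨆ l, fv v (up K a i l)) = 1 := fun i => hs1 (FinitePlace.mk v) hvS i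
      have h3 : fv v (lin (up K a i) Q.rep) < (⨆ l, fv v (up K a j l)) * ⨆ l, fv v (Q.rep l) :=
        hij.trans_le h1
      rw [h2 j, ← h2 i] at h3
      exact h3
    have h3 := orbKey (K := K) (L := L) (up K a) hup0 Q.rep Q.rep_nonzero hl R hR' T J e he hCamp
    have h6 : height Q = logHeight Q.rep / Module.finrank ℚ K := by
      unfold height
      rw [logHeight_eq_log_mulHeight]
      congr 2
      conv_lhs => rw [← Q.mk_rep]
      exact Projectivization.mulHeight_mk _
    set N := ∑ᶠ w : HeightOneSpectrum (𝓞 L),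
        if w ∉ T ∧ ∃ i ∈ J, 0 < lam (fv w) (ext L (liftTo h a i)) (ext L Q.rep) then
          Real.log (Ideal.absNorm w.asIdeal) else 0 with hN
    set PT := ∑ w ∈ T, Real.log (Ideal.absNorm w.asIdeal) with hPT
    set M : Fin q → ℝ := fun i => ∑ w : InfinitePlace L,
        (w.mult : ℝ) * lam w.1 (ext L (liftTo h a i)) (ext L Q.rep) +
          ∑ w ∈ T, lam (fv w) (ext L (liftTo h a i)) (ext L Q.rep) with hM
    have h3' : (Module.finrank K L : ℝ) * (Real.log |(discr K : ℝ)| +
        ∑ v ∈ R, Real.log (Ideal.absNorm v.asIdeal)) ≤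
        Real.log |(discr L : ℝ)| + PT + N +
        ∑ i ∈ Jᶜ, (1 / (e i : ℝ)) * (logHeight (ext L (up K a i)) + logHeight (ext L Q.rep) -
          M i) := h3
    have h7 : Real.log |(NumberField.discr L : ℝ)| + PT + N + Module.finrank ℚ L * c <
        (θ - ∑ i ∈ Jᶜ, 1 / (e i : ℝ)) * logHeight (ext L Q.rep) +
        ∑ i ∈ Jᶜ, 1 / (e i : ℝ) * M i := by
      have hviol' : N / Module.finrank ℚ L + PT / Module.finrank ℚ L +
          Real.log |(NumberField.discr L : ℝ)| / Module.finrank ℚ L + c <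
        (θ - ∑ i ∈ Jᶜ, 1 / (e i : ℝ)) * (Height.logHeight (ext L Q.rep) / Module.finrank ℚ L) +
          ∑ i ∈ Jᶜ, 1 / (e i : ℝ) * (M i / Module.finrank ℚ L) := hviol
      have := mul_lt_mul_of_pos_left hviol' hnL
      have e1 : (Module.finrank ℚ L : ℝ) * (N / Module.finrank ℚ L + PT / Module.finrank ℚ L +
          Real.log |(NumberField.discr L : ℝ)| / Module.finrank ℚ L + c) =
          Real.log |(NumberField.discr L : ℝ)| + PT + N + Module.finrank ℚ L * c := by
        field_simp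
        ring
      have e2 : (Module.finrank ℚ L : ℝ) *
        ((θ - ∑ i ∈ Jᶜ, 1 / (e i : ℝ)) * (Height.logHeight (ext L Q.rep) / Module.finrank ℚ L) +
          ∑ i ∈ Jᶜ, 1 / (e i : ℝ) * (M i / Module.finrank ℚ L)) =
          (θ - ∑ i ∈ Jᶜ, 1 / (e i : ℝ)) * logHeight (ext L Q.rep) +
          ∑ i ∈ Jᶜ, 1 / (e i : ℝ) * M i := by
        rw [mul_add, Finset.mul_sum]
        congr 1
        · field_simp
        · refine Finset.sum_congr rfl fun i _ => ?_
          field_simp
      rw [e1, e2] at this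
      exact this
    have h8 : ∑ i ∈ Jᶜ, (1 / (e i : ℝ)) * (logHeight (ext L (up K a i)) +
        logHeight (ext L Q.rep) - M i) ≤ Module.finrank ℚ L * ∑ i, C i +
        (∑ i ∈ Jᶜ, 1 / (e i : ℝ)) * logHeight (ext L Q.rep) - ∑ i ∈ Jᶜ, 1 / (e i : ℝ) * M i := by
      have h9 : ∀ i ∈ Jᶜ, (1 / (e i : ℝ)) * (logHeight (ext L (up K a i)) +
          logHeight (ext L Q.rep) - M i) ≤ Module.finrank ℚ L * C i +
          1 / (e i : ℝ) * logHeight (ext L Q.rep) - 1 / (e i : ℝ) * M i := by
        intro i hi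
        have h10 : (1 : ℝ) ≤ e i := by exact_mod_cast he i (Finset.mem_compl.1 hi)
        have h11 : 1 / (e i : ℝ) ≤ 1 := by
          rw [div_le_one (by linarith)]
          exact h10
        have h12 : 0 ≤ 1 / (e i : ℝ) := by positivity
        have h13 : 0 ≤ (Module.finrank ℚ L : ℝ) * C i := mul_nonneg hnL.le (hC0 i)
        have h14 := mul_le_mul_of_nonneg_left (hLb i) h12
        nlinarith
      refine (Finset.sum_le_sum h9).trans ?_
      rw [Finset.sum_sub_distrib, Finset.sum_add_distrib, ← Finset.mul_sum, ← Finset.sum_mul]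
      have h10 : ∑ i ∈ Jᶜ, C i ≤ ∑ i, C i :=
        Finset.sum_le_sum_of_subset_of_nonneg (Finset.subset_univ _) fun i _ _ => hC0 i
      have h11 := mul_le_mul_of_nonneg_left h10 hnL.le
      linarith
    have h9 : (Module.finrank K L : ℝ) * (Real.log |(discr K : ℝ)| +
        ∑ v ∈ R, Real.log (Ideal.absNorm v.asIdeal)) <
        Module.finrank K L * (θ * logHeight Q.rep + Module.finrank ℚ K * (∑ i, C i) -
          Module.finrank ℚ K * c) := by
      rw [hLx] at h7 h8
      rw [hfr] at h7 h8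
      have h10 : (Module.finrank K L : ℝ) * (Real.log |(discr K : ℝ)| +
        ∑ v ∈ R, Real.log (Ideal.absNorm v.asIdeal)) <
        (θ - ∑ i ∈ Jᶜ, 1 / (e i : ℝ)) * (Module.finrank K L * logHeight Q.rep) +
        ∑ i ∈ Jᶜ, 1 / (e i : ℝ) * M i - Module.finrank ℚ K * Module.finrank K L * c +
        (Module.finrank ℚ K * Module.finrank K L * ∑ i, C i +
        (∑ i ∈ Jᶜ, 1 / (e i : ℝ)) * (Module.finrank K L * logHeight Q.rep) -
          ∑ i ∈ Jᶜ, 1 / (e i : ℝ) * M i) := by
        rw [hLx] at h3'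
        linarith
      refine h10.trans_le (le_of_eq ?_)
      ring
    have h10 := lt_of_mul_lt_mul_left h9 hnKL.le
    have h11 : (Module.finrank ℚ K : ℝ) * logDisc K = Real.log |(discr K : ℝ)| := by
      unfold logDisc
      field_simp
    have h12 : (Module.finrank ℚ K : ℝ) * height Q = logHeight Q.rep := by
      rw [h6]
      field_simp
    rw [hX]
    have e3 : (Module.finrank ℚ K : ℝ) * (θ * height Q + ∑ i, C i - c - logDisc K) =
        θ * (Module.finrank ℚ K * height Q) + Module.finrank ℚ K * (∑ i, C i) -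
          Module.finrank ℚ K * c - Module.finrank ℚ K * logDisc K := by ring
    rw [e3, h11, h12]
    linarith
  have htr : truncated S0 (liftTo h a) Q = N1 S0 (up K a) Q.rep / Module.finrank ℚ K := rfl
  have hb : (∑ v ∈ S0, logNorm v) / (Module.finrank ℚ K : ℝ) ≤ A := by
    rw [div_le_iff₀ hnK]
    refine le_trans (le_of_eq ?_) (hS0.trans (le_of_eq (mul_comm _ _)))
    rfl
  have h1 : N1 S0 (up K a) Q.rep / (Module.finrank ℚ K : ℝ) ≤
      θ * height Q + ∑ i, C i - c - logDisc K := by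
    rw [div_le_iff₀ hnK]
    refine hN1.trans (le_of_eq ?_)
    rw [hX]
    ring
  rw [htr]
  linarith

end Pool.Agent.U587.FD
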